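import Pool.Agent.H96.FL.G
import Pool.Graph.R_seed8.W93.TD5

set_option autoImplicit false

/-! # The formula of Hardy and Littlewood for single shifts near `α v + g + β` -/

namespace Pool.Agent.H79.S

open Finset
open Pool.Agent.H469R2.NK (e norm_e)
open Pool.Agent.TH935.GF (En)
open Pool.Agent.H373R2.T7 (ev_L' lamz lamI lamzI Vz Vz_pos Vz_inv_small lamz_nonneg sup_diff)
open Pool.Agent.H96.FL (Cov win Del fl_log mem_win ee_e lamz_le')
open Pool.Agent.W93.TD (HLs det3)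

open Classical in
/-- the shifts `h` in `[1, B N]` for which the formula fails -/
noncomputable def badShifts (B U N : ℕ) (ε y H : ℝ) : Finset ℤ :=
  (win y H).filter (fun h : ℤ => 1 ≤ h ∧ h ≤ B * N ∧ ¬ HLs ε U N (fun _ : Fin 1 => h.toNat))

lemma Del_lam (B N z : ℕ) (h : ℤ) (h1 : 1 ≤ h) (h2 : h ≤ B * N) :
    Del (fun m => if m ≤ N then ((ArithmeticFunction.vonMangoldt m : ℝ) : ℂ) else 0)
      (fun m => ((ArithmeticFunction.vonMangoldt m - lamz z m : ℝ) : ℂ)) ((B + 1) * N) h =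
    ((∑ n ∈ Icc 1 N, ArithmeticFunction.vonMangoldt n *
        (∏ i : Fin 1, lamI ((n : ℤ) + (((fun _ : Fin 1 => h.toNat) i : ℕ) : ℤ)) -
          ∏ i : Fin 1, lamzI z ((n : ℤ) + (((fun _ : Fin 1 => h.toNat) i : ℕ) : ℤ))) : ℝ) : ℂ) := by
  unfold Del
  have hsub : Icc 1 N ⊆ Icc 1 ((B + 1) * N) := by
    apply Icc_subset_Icc_right
    exact Nat.le_mul_of_pos_left _ (Nat.succ_pos _)
  rw [← sum_subset hsub]
  · push_cast
    refine sum_congr rfl fun n hn => ?_
    rw [mem_Icc] at hn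
    rw [if_pos hn.2]
    unfold Pool.Agent.H96.FL.ext lamI lamzI
    have hN' : ((n : ℤ) : ℤ) ≤ (N : ℤ) := by exact_mod_cast hn.2
    have hn0 : (0 : ℤ) ≤ n := Int.natCast_nonneg n
    have h3 : ((n : ℤ) + ((h.toNat : ℕ) : ℤ)) = (n : ℤ) + h := by
      rw [Int.toNat_of_nonneg (by omega)]
    have h4 : (1 : ℤ) ≤ (n : ℤ) + h := by omega
    have h5 : (n : ℤ) + h ≤ (((B + 1) * N : ℕ) : ℤ) := by
      push_cast
      linarith
    rw [if_pos ⟨h4, h5⟩]
    simp only [prod_const, card_univ, Fintype.card_fin, pow_one, h3, if_pos h4]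
  · intro m hm hm'
    rw [mem_Icc] at hm hm'
    have h3 : ¬ m ≤ N := by omega
    simp only [if_neg h3, zero_mul]

open Classical in
theorem law_scale (p c B U : ℕ) (ε : ℝ) (hε : 0 < ε) : ∃ C : ℕ, ∀ D : ℕ, ∃ N₀ : ℕ, ∀ N : ℕ, N₀ ≤ N →
    ∀ (Z : Type) [Fintype Z] (v : Z → ℤ), (∀ x, |v x| ≤ B * N) →
    (En p v : ℝ) * N ≤ Real.log N ^ c * (Fintype.card Z : ℝ) ^ (2 * p) → ∀ g : Z → ℝ,
    ∃ 𝓔 : Set ℝ, Cov 𝓔 (Real.log N ^ C) (1 / Real.log N ^ D) ∧ ∀ α ∉ 𝓔, ∀ β : ℝ,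
      (((univ : Finset Z).filter fun x => ∃ H : ℝ, 1 ≤ H ∧ H ≤ N ∧ H / Real.log N ^ U <
        (badShifts B U N ε (α * v x + g x + β) H).card).card : ℝ) ≤ Fintype.card Z / Real.log N ^ U := by
  obtain ⟨c', hc'⟩ : ∃ c', c' = c + 2 := ⟨_, rfl⟩
  obtain ⟨C, hC⟩ := fl_log p c' (B + 1) (U + 3) (by omega)
  refine ⟨C, fun D => ?_⟩
  obtain ⟨A, N1, h1⟩ := hC D
  obtain ⟨B₀, hsup⟩ := sup_diff (A + 1)
  obtain ⟨E1, hE1⟩ : ∃ E1, E1 = B₀ + 1 + (U + 6) := ⟨_, rfl⟩
  obtain ⟨N2, h2⟩ := hsup (E1 + 1)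
  obtain ⟨n3, h3⟩ := ev_L' ((B + 1 : ℕ) + 2 ^ B₀ + 5)
  obtain ⟨n4, h4⟩ := Vz_inv_small (E1 + 1)
  obtain ⟨n5, h5⟩ := det3 1 B E1 U le_rfl ε hε (by omega)
  refine ⟨max (max N1 N2) (max (max n3 n4) (max n5 (B + 3))), fun N hN Z _ v hv hE g => ?_⟩
  have b1 : N1 ≤ N := le_trans (le_trans (le_max_left _ _) (le_max_left _ _)) hN
  have b2 : N2 ≤ N := le_trans (le_trans (le_max_right _ _) (le_max_left _ _)) hN
  have a3 := h3 N (le_trans (le_trans (le_trans (le_max_left _ _) (le_max_left _ _)) (le_max_right _ _)) hN)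
  have b4 : n4 ≤ N := le_trans (le_trans (le_trans (le_max_right _ _) (le_max_left _ _)) (le_max_right _ _)) hN
  have b5 : n5 ≤ N := le_trans (le_trans (le_trans (le_max_left _ _) (le_max_right _ _)) (le_max_right _ _)) hN
  have b6 : B + 3 ≤ N := le_trans (le_trans (le_trans (le_max_right _ _) (le_max_right _ _)) (le_max_right _ _)) hN
  have hN0 : (0 : ℝ) < N := by exact_mod_cast (by omega : 0 < N)
  obtain ⟨L, hL⟩ : ∃ L, L = Real.log (N : ℝ) := ⟨_, rfl⟩
  have hP0 : (0 : ℝ) < 2 ^ B₀ := by positivity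
  have hBr : ((B + 1 : ℕ) : ℝ) = (B : ℝ) + 1 := by push_cast; ring
  rw [← hL, hBr] at a3
  have hB0 : (0 : ℝ) ≤ B := Nat.cast_nonneg B
  have hL5 : 5 ≤ L := by linarith
  have hLB : (B : ℝ) + 1 ≤ L := by linarith
  have hLP : (2 : ℝ) ^ B₀ ≤ L := by linarith
  have hL0 : 0 < L := by linarith
  have hL1 : 1 ≤ L := by linarith
  -- the sifting level
  obtain ⟨z, hz⟩ : ∃ z, z = ⌈L ^ E1⌉₊ := ⟨_, rfl⟩
  have hLE : 1 ≤ L ^ E1 := one_le_pow₀ hL1
  have hz1 : L ^ E1 ≤ z := by rw [hz]; exact Nat.le_ceil _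
  have hz2 : (z : ℝ) ≤ L ^ (E1 + 1) := by
    have h6 : (z : ℝ) < L ^ E1 + 1 := by rw [hz]; exact Nat.ceil_lt_add_one (by positivity)
    rw [pow_succ]
    nlinarith
  have hz0 : 1 ≤ z := by
    have : (1 : ℝ) ≤ z := hLE.trans hz1
    exact_mod_cast this
  have hVz : (Vz z)⁻¹ ≤ L := by rw [hL]; exact h4 N b4 z hz0 (by rw [← hL]; exact hz2)
  -- the length of the sums
  obtain ⟨M, hM⟩ : ∃ M, M = (B + 1) * N := ⟨_, rfl⟩
  have hMN : N ≤ M := by rw [hM]; exact Nat.le_mul_of_pos_left _ (Nat.succ_pos _)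
  have hMr : (M : ℝ) = (B + 1) * N := by rw [hM]; push_cast; ring
  have hM0 : (0 : ℝ) < M := by rw [hMr]; positivity
  obtain ⟨L', hL'⟩ : ∃ L', L' = Real.log (M : ℝ) := ⟨_, rfl⟩
  have hLL' : L ≤ L' := by
    rw [hL, hL']
    exact Real.log_le_log hN0 (by exact_mod_cast hMN)
  have hL'L : L' ≤ 2 * L := by
    have h6 : (M : ℝ) ≤ N * N := by
      rw [hMr]
      apply mul_le_mul_of_nonneg_right _ hN0.le
      exact_mod_cast (by omega : B + 1 ≤ N)
    have h7 : L' ≤ Real.log ((N : ℝ) * N) := by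
      rw [hL']
      exact Real.log_le_log hM0 h6
    rw [Real.log_mul hN0.ne' hN0.ne', ← hL] at h7
    linarith
  have hL'0 : 0 < L' := by linarith
  have hlogm : ∀ m : ℕ, 1 ≤ m → m ≤ M → ArithmeticFunction.vonMangoldt m ≤ 2 * L := by
    intro m hm1 hm2
    refine (ArithmeticFunction.vonMangoldt_le_log).trans (le_trans ?_ hL'L)
    rw [hL']
    apply Real.log_le_log (by exact_mod_cast hm1)
    exact_mod_cast hm2
  have hLc : L ^ 2 ≤ L ^ c' := pow_le_pow_right₀ hL1 (by omega)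
  have hsupM : ∀ θ : ℝ, ‖∑ m ∈ Icc 1 ((B + 1) * N), (((ArithmeticFunction.vonMangoldt m - lamz z m : ℝ) : ℂ)) * e (m * θ)‖ ≤
      N / L ^ A := by
    intro θ
    have h6 := h2 M (b2.trans hMN) z (by
      rw [← hL']
      refine le_trans ?_ hz1
      calc L' ^ B₀ ≤ (2 * L) ^ B₀ := pow_le_pow_left₀ hL'0.le hL'L _
        _ = 2 ^ B₀ * L ^ B₀ := mul_pow _ _ _
        _ ≤ L * L ^ B₀ := mul_le_mul_of_nonneg_right hLP (by positivity)
        _ = L ^ (B₀ + 1) := by rw [pow_succ]; ring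
        _ ≤ L ^ E1 := pow_le_pow_right₀ hL1 (by omega)) (by
      rw [← hL']
      exact hz2.trans (pow_le_pow_left₀ hL0.le hLL' _)) θ
    rw [← hL', hMr] at h6
    rw [← hM]
    have h7 : ∑ m ∈ Icc 1 M, (((ArithmeticFunction.vonMangoldt m - lamz z m : ℝ) : ℂ)) * e (m * θ) =
        ∑ m ∈ Icc 1 M, (((ArithmeticFunction.vonMangoldt m - lamz z m : ℝ) : ℂ)) *
          Pool.Agent.H807R2.Dav.ee ((m : ℝ) * θ) := by
      refine sum_congr rfl fun m _ => ?_
      rw [ee_e]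
    rw [h7]
    refine h6.trans ?_
    have h8 : L ^ (A + 1) ≤ L' ^ (A + 1) := pow_le_pow_left₀ hL0.le hLL' _
    calc ((B : ℝ) + 1) * N / L' ^ (A + 1) ≤ ((B : ℝ) + 1) * N / L ^ (A + 1) :=
          div_le_div_of_nonneg_left (by positivity) (by positivity) h8
      _ ≤ L * N / L ^ (A + 1) := by
          apply div_le_div_of_nonneg_right _ (by positivity)
          exact mul_le_mul_of_nonneg_right hLB hN0.le
      _ = N / L ^ A := by
          rw [pow_succ]
          field_simp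
  rw [← hL] at hE
  obtain ⟨𝓔, hE1', hE2⟩ := h1 N b1 Z v (fun x => (hv x).trans (by
      have : (0 : ℤ) ≤ (N : ℤ) := by positivity
      push_cast
      linarith)) (by
      rw [← hL]
      refine hE.trans ?_
      apply mul_le_mul_of_nonneg_right _ (by positivity)
      exact pow_le_pow_right₀ hL1 (by omega)) g Unit {()} (by
      rw [← hL, card_singleton, Nat.cast_one]
      exact one_le_pow₀ hL1)
    (fun _ m => if m ≤ N then ((ArithmeticFunction.vonMangoldt m : ℝ) : ℂ) else 0) (fun _ _ m hm => by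
      rw [mem_Icc] at hm
      rw [← hL]
      split_ifs with h
      · rw [Complex.norm_real, Real.norm_eq_abs, abs_of_nonneg ArithmeticFunction.vonMangoldt_nonneg]
        refine (hlogm m hm.1 (by rw [hM]; exact hm.2)).trans (le_trans ?_ hLc)
        nlinarith
      · rw [norm_zero]; positivity)
    (fun m => ((ArithmeticFunction.vonMangoldt m - lamz z m : ℝ) : ℂ)) (fun m hm => by
      rw [mem_Icc] at hm
      rw [← hL, Complex.norm_real, Real.norm_eq_abs]
      have h6 := hlogm m hm.1 (by rw [hM]; exact hm.2)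
      have h7 : 0 ≤ ArithmeticFunction.vonMangoldt m := ArithmeticFunction.vonMangoldt_nonneg
      have h8 := lamz_nonneg z m
      have h9 := (lamz_le' z m).trans hVz
      have h10 : |ArithmeticFunction.vonMangoldt m - lamz z m| ≤ 2 * L := by
        rw [abs_le]
        constructor <;> linarith
      refine h10.trans (le_trans ?_ hLc)
      nlinarith) (by rw [← hL]; exact hsupM)
  refine ⟨𝓔, hE1', fun α hα β => ?_⟩
  have h6 := hE2 α hα β
  rw [← hL] at h6 ⊢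
  have hpow : L ^ U ≤ L ^ (U + 3) := pow_le_pow_right₀ hL1 (by omega)
  have h7 : (Fintype.card Z : ℝ) / L ^ (U + 3) ≤ Fintype.card Z / L ^ U :=
    div_le_div_of_nonneg_left (Nat.cast_nonneg _) (by positivity) hpow
  refine le_trans ?_ (h6.trans h7)
  apply Nat.cast_le.2
  apply card_le_card
  intro x hx
  rw [mem_filter] at hx ⊢
  obtain ⟨h8, H, hH1, hH2, hH3⟩ := hx
  refine ⟨h8, (), mem_singleton_self _, H, hH1, hH2, ?_⟩
  have h9 : H / L ^ (U + 3) ≤ H / L ^ U := div_le_div_of_nonneg_left (by linarith) (by positivity) hpow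
  refine h9.trans_lt (hH3.trans_le ?_)
  apply Nat.cast_le.2
  apply card_le_card
  intro h hh
  unfold badShifts at hh
  rw [mem_filter] at hh ⊢
  obtain ⟨h10, h11, h12, h13⟩ := hh
  refine ⟨h10, ?_⟩
  by_contra hcon
  push Not at hcon
  apply h13
  apply h5 N b5 z (by rw [← hL]; exact hz1) (by rw [← hL]; exact hz2) (fun _ => h.toNat)
  · intro _
    have : ((h.toNat : ℕ) : ℤ) ≤ ((B * N : ℕ) : ℤ) := by
      rw [Int.toNat_of_nonneg (by omega)]
      push_cast
      exact h12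
    exact_mod_cast this
  · intro _
    omega
  · intro i j hij
    exact absurd (Subsingleton.elim i j) hij
  · rw [Del_lam B N z h h11 h12, Complex.norm_real, Real.norm_eq_abs] at hcon
    refine hcon.trans ?_
    rw [← hL]
    have h14 : L ^ (U + 3) = L ^ (U + 2) * L := pow_succ _ _
    rw [h14]
    have h15 : (0 : ℝ) < L ^ (U + 2) := by positivity
    rw [div_le_iff₀ (by positivity)]
    have h16 : (1 / 2 : ℝ) * (N / L ^ (U + 2)) * (L ^ (U + 2) * L) = 1 / 2 * N * L := by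
      field_simp
    rw [h16]
    nlinarith

end Pool.Agent.H79.S
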